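import Pool.Agent.W680.WH.Stm

/-!
# WHH-INV: invertibility
-/

set_option autoImplicit false

open scoped ComplexConjugate InnerProductSpace
open ContinuousLinearMap Filter
open Pool.Agent.W680.WH

namespace Pool.Agent.W778.WHH.INV

theorem om_le_lin (n : ℕ) : om (n : ℤ) ≤ 2 * n + 1 := by
  induction n with
  | zero => simp [om]
  | succ n ih =>
    have h := om_succ_nat n
    have e : ((n + 1 : ℕ) : ℤ) = (n : ℤ) + 1 := by push_cast; ring
    rw [e, h]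
    have hp := om_pos (n : ℤ)
    have hn : (0 : ℝ) ≤ n := Nat.cast_nonneg n
    have h1 : (4 * (n : ℝ) + 3) / (4 * (n : ℝ) + 1) ≤ (2 * n + 3) / (2 * n + 1) := by
      rw [div_le_div_iff₀ (by positivity) (by positivity)]
      nlinarith
    have h2 : om (n : ℤ) * ((4 * (n : ℝ) + 3) / (4 * (n : ℝ) + 1)) ≤
        (2 * n + 1) * ((2 * n + 3) / (2 * n + 1)) :=
      mul_le_mul ih h1 (by positivity) (by positivity)
    have h3 : (2 * (n : ℝ) + 1) * ((2 * n + 3) / (2 * n + 1)) = 2 * n + 3 := by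
      field_simp
    push_cast
    linarith

theorem exists_small (a : ℂ) (ha : ‖a‖ < 1) :
    ∃ N : ℕ, (‖a‖ ^ N) ^ 2 * om (N : ℤ) < 1 := by
  have h1 : Tendsto (fun n : ℕ => (n : ℝ) ^ 1 * (‖a‖ ^ 2) ^ n) atTop (nhds 0) :=
    tendsto_pow_const_mul_const_pow_of_abs_lt_one 1 (by
      rw [abs_of_nonneg (by positivity)]
      exact pow_lt_one₀ (norm_nonneg _) ha (by norm_num))
  have h2 : Tendsto (fun n : ℕ => (‖a‖ ^ 2) ^ n) atTop (nhds 0) :=
    tendsto_pow_atTop_nhds_zero_of_lt_one (by positivity)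
      (pow_lt_one₀ (norm_nonneg _) ha (by norm_num))
  have h3 := (h1.const_mul 2).add h2
  simp only [mul_zero, add_zero] at h3
  obtain ⟨N, hN⟩ := ((tendsto_order.1 h3).2 1 one_pos).exists
  refine ⟨N, lt_of_le_of_lt ?_ hN⟩
  have h4 := om_le_lin N
  have h5 : (0 : ℝ) ≤ (‖a‖ ^ 2) ^ N := by positivity
  rw [← pow_mul, mul_comm N 2, pow_mul]
  nlinarith

theorem unit_of_pow {A : E →L[ℂ] E} {a : ℂ} (ha : ‖a‖ < 1)
    (hA : ∀ (N : ℕ) (f : E), ‖(A ^ N) f‖ ^ 2 ≤ om (N : ℤ) * ‖f‖ ^ 2) : IsUnit (1 - a • A) := by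
  obtain ⟨N, hN⟩ := exists_small a ha
  have h1 : ‖(a • A) ^ N‖ < 1 := by
    have h2 : ‖(a • A) ^ N‖ ≤ ‖a‖ ^ N * Real.sqrt (om (N : ℤ)) := by
      rw [smul_pow, norm_smul, norm_pow]
      refine mul_le_mul_of_nonneg_left ?_ (by positivity)
      refine ContinuousLinearMap.opNorm_le_bound _ (Real.sqrt_nonneg _) (fun f => ?_)
      refine le_of_sq_le_sq ?_ (by positivity)
      rw [mul_pow, Real.sq_sqrt (om_pos _).le]
      exact hA N f
    refine lt_of_le_of_lt h2 ?_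
    have h3 : 0 ≤ ‖a‖ ^ N * Real.sqrt (om (N : ℤ)) := by positivity
    have h4 : (‖a‖ ^ N * Real.sqrt (om (N : ℤ))) ^ 2 < 1 := by
      rw [mul_pow, Real.sq_sqrt (om_pos _).le]
      exact hN
    nlinarith
  have h5 : IsUnit (1 - (a • A) ^ N) := isUnit_one_sub_of_norm_lt_one h1
  have h6 : (1 - a • A) * ∑ i ∈ Finset.range N, (a • A) ^ i = 1 - (a • A) ^ N :=
    mul_neg_geom_sum _ _
  have h7 : Commute (1 - a • A) (∑ i ∈ Finset.range N, (a • A) ^ i) := by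
    apply Commute.sum_right
    intro i _
    exact ((Commute.one_left _).sub_left (Commute.refl _)).pow_right i
  rw [← h6] at h5
  exact (h7.isUnit_mul_iff.1 h5).1

theorem pow_bound (h1 : S_OM) (h2 : S_OPC) (A : E →L[ℂ] E) (s : ℤ) (hs : s = 1 ∨ s = -1)
    (hA : ∀ f (n : ℤ), co (A f) n = co f (n - s)) (N : ℕ) (f : E) :
    ‖(A ^ N) f‖ ^ 2 ≤ om (N : ℤ) * ‖f‖ ^ 2 := by
  have hco : ∀ (N : ℕ) f (n : ℤ), co ((A ^ N) f) n = co f (n - N * s) := by
    intro N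
    induction N with
    | zero => intro f n; simp
    | succ N ih =>
      intro f n
      rw [pow_succ']
      change co (A ((A ^ N) f)) n = _
      rw [hA, ih]
      congr 1
      push_cast
      ring
  have hnorm := h2.2.2.2.2.2.2.1
  have hsum := h2.2.2.2.2.2.2.2.1
  rw [hnorm, hnorm f, ← tsum_mul_left]
  have e1 : ∑' n, om n * ‖co ((A ^ N) f) n‖ ^ 2 = ∑' n : ℤ, om (n + N * s) * ‖co f n‖ ^ 2 := by
    rw [← (Equiv.subRight ((N : ℤ) * s)).tsum_eq (fun n => om (n + N * s) * ‖co f n‖ ^ 2)]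
    refine tsum_congr (fun n => ?_)
    rw [hco]
    simp
  rw [e1]
  have hle : ∀ n : ℤ, om (n + N * s) * ‖co f n‖ ^ 2 ≤ om (N : ℤ) * (om n * ‖co f n‖ ^ 2) := by
    intro n
    have h3 := h1.2.2.1 n (N * s)
    have h4 : om ((N : ℤ) * s) = om (N : ℤ) := by
      rcases hs with rfl | rfl
      · simp
      · rw [mul_neg_one, om_neg]
    rw [h4] at h3
    have h5 : (0 : ℝ) ≤ ‖co f n‖ ^ 2 := by positivity
    nlinarith
  refine Summable.tsum_le_tsum hle ?_ ((hsum f).mul_left _)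
  exact Summable.of_nonneg_of_le (fun n => mul_nonneg (om_pos _).le (by positivity)) hle
    ((hsum f).mul_left _)

theorem main (h1 : S_OM) (h2 : S_OPA) (h3 : S_OPC) : S_INV := by
  have hZ : ∀ a : ℂ, ‖a‖ < 1 → IsUnit (1 - a • Z) := fun a ha =>
    unit_of_pow ha (pow_bound h1 h3 Z 1 (Or.inl rfl) h3.2.1)
  have hZi : ∀ a : ℂ, ‖a‖ < 1 → IsUnit (1 - a • Zi) := fun a ha =>
    unit_of_pow ha (pow_bound h1 h3 Zi (-1) (Or.inr rfl) (fun f n => by
      rw [h3.2.2.1]; simp only [sub_neg_eq_add]))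
  have hZ2 : ∀ a : ℂ, ‖a‖ < 1 → IsUnit (1 - a • Z2) := by
    intro a ha
    have h := (hZi (conj a) (by rwa [RCLike.norm_conj])).star
    rw [star_sub, star_one, star_smul, ContinuousLinearMap.star_eq_adjoint, h2.2.1.2] at h
    simpa using h
  have hZs : ∀ a : ℂ, ‖a‖ < 1 → IsUnit (1 - a • Zs) := by
    intro a ha
    have h := (hZ (conj a) (by rwa [RCLike.norm_conj])).star
    rw [star_sub, star_one, star_smul, ContinuousLinearMap.star_eq_adjoint, h2.2.1.1] at h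
    simpa using h
  obtain ⟨⟨z1, z2, z3, z4⟩, -⟩ := h2
  have uZ : IsUnit Z := ⟨⟨Z, Zi, z1, z2⟩, rfl⟩
  have uZ2 : IsUnit Z2 := ⟨⟨Z2, Zs, z3, z4⟩, rfl⟩
  intro a ha
  refine ⟨hZ a ha, hZi a ha, hZ2 a ha, hZs a ha, ?_, ?_⟩
  · have e : Z - a • (1 : E →L[ℂ] E) = Z * (1 - a • Zi) := by
      rw [mul_sub, mul_one, mul_smul_comm, z1]
    rw [e]
    exact uZ.mul (hZi a ha)
  · have e : Z2 - a • (1 : E →L[ℂ] E) = Z2 * (1 - a • Zs) := by
      rw [mul_sub, mul_one, mul_smul_comm, z3]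
    rw [e]
    exact uZ2.mul (hZs a ha)

end Pool.Agent.W778.WHH.INV
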