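import Pool.Agent.W680.WH.Stm

/-!
# WHH-DIA: diagonal form after the normalisation
-/

set_option autoImplicit false

open scoped ComplexConjugate InnerProductSpace
open ContinuousLinearMap Filter
open Pool.Agent.W680.WH

namespace Pool.Agent.W778.WHH.DIA

/-- the weight of the operator `X` -/
noncomputable def xx (n : ℤ) : ℝ := -((16 * (n : ℝ) + 8) / ((4 * (n : ℝ) + 1) * (4 * (n : ℝ) + 3)))

theorem xx_le (n : ℕ) : xx (n : ℤ) ≤ -(1 / ((n : ℝ) + 1)) := by
  unfold xx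
  have hn : (0 : ℝ) ≤ n := Nat.cast_nonneg n
  push_cast
  rw [neg_le_neg_iff, div_le_div_iff₀ (by positivity) (by positivity)]
  nlinarith

theorem odd_ne (n : ℤ) (k : ℤ) (hk : k % 2 = 1) : (4 * (n : ℂ) + k) ≠ 0 := by
  have h : (4 * n + k) ≠ 0 := by omega
  exact_mod_cast h

section coords
variable (hA : S_OPA) (hC : S_OPC)
include hC

theorem co_sub (f g : E) (n : ℤ) : co (f - g) n = co f n - co g n := by
  have h := hC.2.2.2.2.1
  have h2 := hC.2.2.2.2.2.1
  rw [sub_eq_add_neg, h, ← neg_one_smul ℂ g, h2]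
  ring

theorem co_Q (f : E) (n : ℤ) : co (Q f) n = (2 / (4 * (n : ℂ) - 1)) * co f (n - 1) := by
  have e : Q f = Z f - Z2 f := rfl
  rw [e, co_sub hC, hC.2.1, hC.2.2.2.1]
  have h1 : (4 * (n : ℂ) - 1) ≠ 0 := by
    have := odd_ne n (-1) (by norm_num)
    push_cast at this
    rwa [← sub_eq_add_neg] at this
  field_simp
  ring

include hA in
theorem co_Zs (f : E) (n : ℤ) :
    co (Zs f) n = ((4 * (n : ℂ) + 3) / (4 * (n : ℂ) + 1)) * co f (n + 1) := by
  have e : Z2 (Zs f) = f := by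
    have := congrArg (fun A : E →L[ℂ] E => A f) hA.1.2.2.1
    exact this
  have h := hC.2.2.2.1 (Zs f) (n + 1)
  rw [e, add_sub_cancel_right] at h
  rw [h]
  have h1 : (4 * (n : ℂ) + 1) ≠ 0 := by
    have := odd_ne n 1 (by norm_num)
    push_cast at this
    exact this
  have h3 : (4 * (n : ℂ) + 3) ≠ 0 := by
    have := odd_ne n 3 (by norm_num)
    push_cast at this
    exact this
  have e1 : (4 * (((n + 1 : ℤ)) : ℂ) - 3) = 4 * (n : ℂ) + 1 := by push_cast; ring
  have e2 : (4 * (((n + 1 : ℤ)) : ℂ) - 1) = 4 * (n : ℂ) + 3 := by push_cast; ring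
  rw [e1, e2]
  field_simp

include hA in
theorem co_X (f : E) (n : ℤ) : co (X f) (n + 1) = (xx n : ℂ) * co f n := by
  have e : X f = (-1 : ℂ) • ((2 : ℂ) • Q f + Q (Zs (Q f))) := by
    rw [neg_one_smul]; rfl
  rw [e, hC.2.2.2.2.2.1, hC.2.2.2.2.1, hC.2.2.2.2.2.1, co_Q hC, co_Q hC, co_Zs hA hC, co_Q hC]
  simp only [add_sub_cancel_right]
  have h1 : (4 * (n : ℂ) + 1) ≠ 0 := by
    have := odd_ne n 1 (by norm_num)
    push_cast at this
    exact this
  have h3 : (4 * (n : ℂ) + 3) ≠ 0 := by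
    have := odd_ne n 3 (by norm_num)
    push_cast at this
    exact this
  have e2 : (4 * (((n + 1 : ℤ)) : ℂ) - 1) = 4 * (n : ℂ) + 3 := by push_cast; ring
  rw [e2]
  unfold xx
  push_cast
  field_simp
  ring

theorem co_comm (F : E →L[ℂ] E) (hF : F * Z = Z * F) (n m : ℤ) (hZe : ∀ n : ℤ, Z (eb n) = eb (n + 1)) :
    co (F (eb n)) m = co (F (eb 0)) (m - n) := by
  have step : ∀ n m : ℤ, co (F (eb (n + 1))) m = co (F (eb n)) (m - 1) := by
    intro n m
    rw [← hZe]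
    have h : F (Z (eb n)) = Z (F (eb n)) := congrArg (fun A : E →L[ℂ] E => A (eb n)) hF
    rw [h, hC.2.1]
  induction n using Int.induction_on generalizing m with
  | zero => simp
  | succ i ih => rw [step, ih]; congr 1; ring
  | pred i ih =>
    have h := step (-(i : ℤ) - 1) (m + 1)
    rw [sub_add_cancel, add_sub_cancel_right] at h
    rw [← h, ih]
    congr 1
    ring

theorem co_bound (f : E) (n : ℤ) : Real.sqrt (om n) * ‖co f n‖ ≤ ‖f‖ := by
  refine le_of_sq_le_sq ?_ (norm_nonneg _)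
  rw [mul_pow, Real.sq_sqrt (om_pos n).le, hC.2.2.2.2.2.2.1 f]
  exact (hC.2.2.2.2.2.2.2.1 f).le_tsum n (fun j _ => mul_nonneg (om_pos j).le (by positivity))

end coords

theorem norm_eb (n : ℤ) : ‖eb n‖ = Real.sqrt (om n) := by
  unfold eb
  rw [lp.norm_single (by norm_num), Complex.norm_real, Real.norm_of_nonneg (Real.sqrt_nonneg _)]

theorem main (h1 : S_OM) (hA : S_OPA) (hC : S_OPC) (hR : S_OPR) (hK : S_KN2) : S_DIA := by
  intro P m k W F l Y B hm hP hPm hk hWP hl hFZ hWF hY hWY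
  have hZe : ∀ n : ℤ, Z (eb n) = eb (n + 1) := hA.2.2.1.1
  have hco := hC.1
  have heb0 : eb 0 ≠ 0 := by
    intro h
    have h2 := hco 0 0
    have h3 := hC.2.2.2.2.2.1 0 (eb 0) 0
    rw [zero_smul, zero_mul] at h3
    rw [h, h3] at h2
    simp at h2
  have hFinj : ∀ f : E, (F : E →L[ℂ] E) f = 0 → f = 0 := by
    intro f hf
    have h2 : (((F⁻¹ : (E →L[ℂ] E)ˣ) : E →L[ℂ] E) * (F : E →L[ℂ] E)) f = f := by
      rw [Units.inv_mul]; rfl
    rw [← h2]
    change ((F⁻¹ : (E →L[ℂ] E)ˣ) : E →L[ℂ] E) ((F : E →L[ℂ] E) f) = 0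
    rw [hf, map_zero]
  have hF0 : (F : E →L[ℂ] E) ≠ 0 := by
    intro h
    apply heb0
    apply hFinj
    rw [h]; rfl
  obtain ⟨k1, ⟨c, hc, k2⟩, -⟩ := hK P m k W (F : E →L[ℂ] E) l hm hP hPm hk hWP hl hFZ hF0 hWF
  set A : E →L[ℂ] E := adjoint (F : E →L[ℂ] E) * P * (F : E →L[ℂ] E) with hAdef
  have hAs : adjoint A = A := by
    rw [hAdef, ← ContinuousLinearMap.star_eq_adjoint, ← ContinuousLinearMap.star_eq_adjoint,
      star_mul, star_mul, star_star, ContinuousLinearMap.star_eq_adjoint P, hP, mul_assoc]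
  have hreal : ∀ n : ℤ, ⟪eb n, A (eb n)⟫_ℂ = (((⟪eb n, A (eb n)⟫_ℂ).re : ℝ) : ℂ) := by
    intro n
    have h : conj ⟪eb n, A (eb n)⟫_ℂ = ⟪eb n, A (eb n)⟫_ℂ := by
      rw [inner_conj_symm]
      conv_lhs => rw [← hAs]
      rw [ContinuousLinearMap.adjoint_inner_left]
    exact (Complex.conj_eq_iff_re.1 h).symm
  -- the reduced operator
  set Y1 : E →L[ℂ] E := ((F⁻¹ : (E →L[ℂ] E)ˣ) : E →L[ℂ] E) * Y * (F : E →L[ℂ] E) with hY1
  have hFY1 : (F : E →L[ℂ] E) * Y1 = Y * (F : E →L[ℂ] E) := by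
    rw [hY1, mul_assoc, ← mul_assoc (F : E →L[ℂ] E), Units.mul_inv, one_mul]
  have hl0 : l ≠ 0 := by
    intro h; rw [h, norm_zero] at hl; exact zero_ne_one hl
  have hcomm : (k : ℂ) • (R k⁻¹ * Y1) = Y1 * R k⁻¹ := by
    have e1 : (k : ℂ) • ((W : E →L[ℂ] E) * Y * (F : E →L[ℂ] E)) =
        Y * ((W : E →L[ℂ] E) * (F : E →L[ℂ] E)) := by
      rw [← smul_mul_assoc, hWY, mul_assoc]
    rw [mul_assoc, ← hFY1, ← mul_assoc, hWF] at e1
    have e2 : l • ((F : E →L[ℂ] E) * ((k : ℂ) • (R k⁻¹ * Y1))) =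
        l • ((F : E →L[ℂ] E) * (Y1 * R k⁻¹)) := by
      calc l • ((F : E →L[ℂ] E) * ((k : ℂ) • (R k⁻¹ * Y1)))
          = (k : ℂ) • (l • ((F : E →L[ℂ] E) * R k⁻¹) * Y1) := by
            rw [mul_smul_comm, smul_comm, smul_mul_assoc, mul_assoc]
        _ = Y * (l • ((F : E →L[ℂ] E) * R k⁻¹)) := e1
        _ = l • ((F : E →L[ℂ] E) * (Y1 * R k⁻¹)) := by
            rw [mul_smul_comm, ← mul_assoc Y, ← hFY1, mul_assoc]
    have e3 := smul_right_injective (E →L[ℂ] E) hl0 e2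
    exact F.isUnit.mul_left_cancel e3
  have hshape : ∀ n m : ℤ, m ≠ n + 1 → co (Y1 (eb n)) m = 0 := by
    intro n m hmn
    have e1 : (k : ℂ) • (R k⁻¹ (Y1 (eb n))) = Y1 (R k⁻¹ (eb n)) :=
      congrArg (fun A : E →L[ℂ] E => A (eb n)) hcomm
    rw [hR.1, map_smul] at e1
    have e2 := congrArg (fun f => co f m) e1
    rw [hC.2.2.2.2.2.1, hC.2.2.2.2.2.1, hR.2.2.2.2.2.2] at e2
    by_contra h0
    have e3 : (k : ℂ) * (((k⁻¹ ^ m : Circle) : ℂ)) = ((k⁻¹ ^ n : Circle) : ℂ) := by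
      rw [← mul_assoc] at e2
      exact mul_right_cancel₀ h0 e2
    have e4 : k * k⁻¹ ^ m = k⁻¹ ^ n := by
      apply Circle.ext
      rw [Circle.coe_mul]
      exact e3
    have e5 : k ^ (n + 1 - m) = 1 := by
      rw [inv_zpow, inv_zpow] at e4
      rw [zpow_sub, zpow_add, zpow_one]
      calc k ^ n * k * (k ^ m)⁻¹ = k ^ n * (k * (k ^ m)⁻¹) := by group
        _ = k ^ n * (k ^ n)⁻¹ := by rw [e4]
        _ = 1 := mul_inv_cancel _
    exact hk (n + 1 - m) (by omega) e5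
  have hY1e : ∀ n : ℤ, Y1 (eb n) = co (Y1 (eb n)) (n + 1) • eb (n + 1) := by
    intro n
    apply hC.2.2.2.2.2.2.2.2.1
    intro j
    rw [hC.2.2.2.2.2.1, hco]
    by_cases hj : j = n + 1
    · subst hj; simp
    · rw [hshape n j hj]; simp [hj]
  refine ⟨fun n => (⟪eb n, A (eb n)⟫_ℂ).re, fun n => co (Y1 (eb n)) (n + 1), c, hc, k2, ?_,
    hY1e, ?_⟩
  · intro n n'
    by_cases h : n = n'
    · subst h
      rw [if_pos rfl]
      exact hreal n
    · rw [if_neg h]
      exact k1 n n' h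
  · -- divergence
    intro N
    by_contra hcon
    push Not at hcon
    obtain ⟨j, hj⟩ : ∃ j : ℤ, co ((F : E →L[ℂ] E) (eb 0)) j ≠ 0 := by
      by_contra hno
      push Not at hno
      apply heb0
      apply hFinj
      apply hC.2.2.2.2.2.2.2.2.1
      intro n
      rw [hno n]
      have h3 := hC.2.2.2.2.2.1 0 (0 : E) n
      rw [zero_smul, zero_mul] at h3
      exact h3.symm
    set β : ℤ → ℂ := fun n => co ((B * (F : E →L[ℂ] E)) (eb n)) (n + j) with hβ
    have hrel : ∀ n : ℤ, co (Y1 (eb n)) (n + 1) * co ((F : E →L[ℂ] E) (eb 0)) j =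
        (xx (n + j) : ℂ) * co ((F : E →L[ℂ] E) (eb 0)) j + β n - β (n + 1) := by
      intro n
      have e1 : (F : E →L[ℂ] E) (Y1 (eb n)) = Y ((F : E →L[ℂ] E) (eb n)) :=
        congrArg (fun A : E →L[ℂ] E => A (eb n)) hFY1
      have e2 : Y ((F : E →L[ℂ] E) (eb n)) = X ((F : E →L[ℂ] E) (eb n)) +
          Z ((B * (F : E →L[ℂ] E)) (eb n)) - (B * (F : E →L[ℂ] E)) (eb (n + 1)) := by
        rw [hY, ← hZe]
        have e3 : (F : E →L[ℂ] E) (Z (eb n)) = Z ((F : E →L[ℂ] E) (eb n)) :=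
          congrArg (fun A : E →L[ℂ] E => A (eb n)) hFZ
        change X _ + Z (B _) - B (Z _) = X _ + Z (B _) - B ((F : E →L[ℂ] E) (Z (eb n)))
        rw [e3]
        rfl
      rw [e2, hY1e n, map_smul] at e1
      have e4 := congrArg (fun f => co f (n + 1 + j)) e1
      rw [co_sub hC, hC.2.2.2.2.1, hC.2.2.2.2.2.1, hC.2.1, co_comm hC _ hFZ (n + 1) _ hZe] at e4
      have e5 : n + 1 + j - (n + 1) = j := by ring
      have e6 : n + 1 + j = (n + j) + 1 := by ring
      have e7 : n + 1 + j - 1 = n + j := by ring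
      rw [e5, e7] at e4
      rw [e6] at e4
      rw [co_X hA hC, co_comm hC _ hFZ n _ hZe] at e4
      have e8 : n + j - n = j := by ring
      rw [e8] at e4
      simp only [hβ]
      have e9 : n + 1 + j = n + j + 1 := by ring
      rw [e9]
      exact e4
    -- bound for β
    set M : ℝ := ‖B * (F : E →L[ℂ] E)‖ * Real.sqrt (om j) with hM
    have hβb : ∀ n, ‖β n‖ ≤ M := by
      intro n
      have b1 := co_bound hC ((B * (F : E →L[ℂ] E)) (eb n)) (n + j)
      have b2 := (B * (F : E →L[ℂ] E)).le_opNorm (eb n)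
      rw [norm_eb] at b2
      have b3 : om n ≤ om (n + j) * om j := by
        have := h1.2.2.1 (n + j) (-j)
        rw [om_neg, add_neg_cancel_right] at this
        exact this
      have b4 : Real.sqrt (om n) ≤ Real.sqrt (om (n + j)) * Real.sqrt (om j) := by
        rw [← Real.sqrt_mul (om_pos _).le]
        exact Real.sqrt_le_sqrt b3
      have b5 : 0 < Real.sqrt (om (n + j)) := Real.sqrt_pos.2 (om_pos _)
      have b6 : Real.sqrt (om (n + j)) * ‖β n‖ ≤ Real.sqrt (om (n + j)) * M := by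
        calc Real.sqrt (om (n + j)) * ‖β n‖ ≤ ‖B * (F : E →L[ℂ] E)‖ * Real.sqrt (om n) :=
              b1.trans b2
          _ ≤ ‖B * (F : E →L[ℂ] E)‖ * (Real.sqrt (om (n + j)) * Real.sqrt (om j)) :=
              mul_le_mul_of_nonneg_left b4 (norm_nonneg _)
          _ = Real.sqrt (om (n + j)) * M := by rw [hM]; ring
      exact le_of_mul_le_mul_left b6 b5
    -- summation
    set N' : ℤ := max N (-j) with hN'
    obtain ⟨p, hp⟩ : ∃ p : ℕ, N' + j = p := Int.eq_ofNat_of_zero_le (by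
      have := le_max_right N (-j); omega)
    have hsum : ∀ K : ℕ, (∑ i ∈ Finset.range K, (xx ((p : ℤ) + i) : ℂ)) *
        co ((F : E →L[ℂ] E) (eb 0)) j = β (N' + K) - β N' := by
      intro K
      induction K with
      | zero => simp
      | succ K ih =>
        rw [Finset.sum_range_succ, add_mul, ih]
        have h2 := hrel (N' + K)
        have h3 : N ≤ N' + K := by
          have := le_max_left N (-j); omega
        rw [hcon (N' + K) h3, zero_mul] at h2
        have h4 : N' + (K : ℤ) + j = (p : ℤ) + K := by omega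
        rw [h4] at h2
        have h5 : N' + ((K + 1 : ℕ) : ℤ) = N' + K + 1 := by push_cast; ring
        rw [h5]
        linear_combination -h2
    have hlow : ∀ K : ℕ, (1 / ((p : ℝ) + 1)) * ∑ i ∈ Finset.range K, (1 / ((i : ℝ) + 1)) ≤
        ‖∑ i ∈ Finset.range K, (xx ((p : ℤ) + i) : ℂ)‖ := by
      intro K
      rw [← Complex.ofReal_sum, Complex.norm_real, Real.norm_eq_abs]
      refine le_trans ?_ (neg_le_abs _)
      rw [Finset.mul_sum, ← Finset.sum_neg_distrib]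
      refine Finset.sum_le_sum (fun i _ => ?_)
      have h2 := xx_le (p + i)
      push_cast at h2
      have hp0 : (0 : ℝ) ≤ p := Nat.cast_nonneg p
      have hi0 : (0 : ℝ) ≤ i := Nat.cast_nonneg i
      have h3 : 1 / ((p : ℝ) + 1) * (1 / ((i : ℝ) + 1)) ≤ 1 / ((p : ℝ) + i + 1) := by
        rw [div_mul_div_comm, one_mul, div_le_div_iff₀ (by positivity) (by positivity)]
        nlinarith [mul_nonneg hp0 hi0]
      linarith
    have hdiv := (Real.tendsto_sum_range_one_div_nat_succ_atTop).const_mul_atTop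
      (show (0 : ℝ) < 1 / ((p : ℝ) + 1) * ‖co ((F : E →L[ℂ] E) (eb 0)) j‖ from
        mul_pos (by positivity) (norm_pos_iff.2 hj))
    obtain ⟨K, hK2⟩ := (hdiv.eventually_gt_atTop (2 * M)).exists
    have h2 := congrArg norm (hsum K)
    rw [norm_mul] at h2
    have h3 : ‖β (N' + K) - β N'‖ ≤ 2 * M := by
      refine (norm_sub_le _ _).trans ?_
      linarith [hβb (N' + K), hβb N']
    have h4 := mul_le_mul_of_nonneg_right (hlow K) (norm_nonneg (co ((F : E →L[ℂ] E) (eb 0)) j))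
    have h5 : 1 / ((p : ℝ) + 1) * ‖co ((F : E →L[ℂ] E) (eb 0)) j‖ *
        ∑ i ∈ Finset.range K, (1 / ((i : ℝ) + 1)) =
        1 / ((p : ℝ) + 1) * (∑ i ∈ Finset.range K, (1 / ((i : ℝ) + 1))) *
          ‖co ((F : E →L[ℂ] E) (eb 0)) j‖ := by ring
    rw [h5] at hK2
    linarith

end Pool.Agent.W778.WHH.DIA
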